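import Mathlib
import Pool.Agent.N236.UB.Stm

/-!
# Project UB (helper236): nonarchimedean absolute values, vectors and matrices (helper491)
-/

set_option autoImplicit false

open Polynomial

namespace Pool.Agent.N491.UB

variable {L : Type} [Field L] {v : AbsoluteValue L ℝ}

theorem v_sub (hna : ∀ x y : L, v (x + y) ≤ max (v x) (v y)) (x y : L) :
    v (x - y) ≤ max (v x) (v y) := by
  have := hna x (-y)
  rwa [v.map_neg, ← sub_eq_add_neg] at this

theorem v_sum (hna : ∀ x y : L, v (x + y) ≤ max (v x) (v y)) {ι : Type*} (s : Finset ι) (f : ι → L)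
    {r : ℝ} (hr : 0 ≤ r) (h : ∀ i ∈ s, v (f i) ≤ r) : v (∑ i ∈ s, f i) ≤ r := by
  classical
  induction s using Finset.induction_on with
  | empty => simpa using hr
  | insert a s ha ih =>
    rw [Finset.sum_insert ha]
    exact (hna _ _).trans (max_le (h a (Finset.mem_insert_self a s))
      (ih fun i hi => h i (Finset.mem_insert_of_mem hi)))

theorem v_nat (hna : ∀ x y : L, v (x + y) ≤ max (v x) (v y)) (n : ℕ) : v (n : L) ≤ 1 := by
  induction n with
  | zero => simp
  | succ n ih =>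
    rw [Nat.cast_succ]
    exact (hna _ _).trans (max_le ih (by simp))

theorem v_int (hna : ∀ x y : L, v (x + y) ≤ max (v x) (v y)) (n : ℤ) : v (n : L) ≤ 1 := by
  rcases Int.natAbs_eq n with h | h
  · rw [h, Int.cast_natCast]; exact v_nat hna _
  · rw [h, Int.cast_neg, Int.cast_natCast, v.map_neg]; exact v_nat hna _

theorem v_coprime (hna : ∀ x y : L, v (x + y) ≤ max (v x) (v y)) {p c : ℕ} (hp : p.Prime)
    (hvp : v (p : L) < 1) (hc : ¬ p ∣ c) : v (c : L) = 1 := by
  have hcop : IsCoprime (c : ℤ) (p : ℤ) :=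
    Nat.isCoprime_iff_coprime.mpr ((Nat.Prime.coprime_iff_not_dvd hp).mpr hc).symm
  obtain ⟨a, b, hab⟩ := hcop
  have h1 : (a : L) * (c : L) + (b : L) * (p : L) = 1 := by exact_mod_cast congrArg (Int.cast (R := L)) hab
  have h2 := hna ((a : L) * (c : L)) ((b : L) * (p : L))
  rw [h1, v.map_one, v.map_mul, v.map_mul] at h2
  have ha := v_int hna a
  have hb := v_int hna b
  have hc1 := v_nat hna c
  have hb2 : v (b : L) * v (p : L) < 1 := by
    calc v (b : L) * v (p : L) ≤ 1 * v (p : L) :=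
          mul_le_mul_of_nonneg_right hb (v.nonneg _)
      _ < 1 := by linarith
  rcases le_max_iff.mp h2 with h | h
  · refine le_antisymm hc1 (h.trans ?_)
    calc v (a : L) * v (c : L) ≤ 1 * v (c : L) := mul_le_mul_of_nonneg_right ha (v.nonneg _)
      _ = v (c : L) := one_mul _
  · exact absurd (h.trans_lt hb2) (lt_irrefl _)

/-- dominant term -/
theorem v_add_eq (hna : ∀ x y : L, v (x + y) ≤ max (v x) (v y)) {x y : L} (h : v y < v x) :
    v (x + y) = v x := by
  apply le_antisymm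
  · exact (hna x y).trans (max_le le_rfl h.le)
  · have := v_sub hna (x + y) y
    rw [add_sub_cancel_right] at this
    rcases le_max_iff.mp this with h1 | h1
    · exact h1
    · exact absurd (h.trans_le h1) (lt_irrefl _)

variable {k : ℕ}

/-- sup norm of a vector -/
noncomputable def nv (v : AbsoluteValue L ℝ) (w : Fin k → L) : ℝ := ‖(fun a => v (w a) : Fin k → ℝ)‖

theorem nv_nonneg (w : Fin k → L) : 0 ≤ nv v w := norm_nonneg _

theorem nv_le_iff {w : Fin k → L} {r : ℝ} (hr : 0 ≤ r) : nv v w ≤ r ↔ ∀ a, v (w a) ≤ r := by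
  rw [nv, pi_norm_le_iff_of_nonneg hr]
  simp only [Real.norm_of_nonneg (v.nonneg _)]

theorem le_nv (w : Fin k → L) (a : Fin k) : v (w a) ≤ nv v w :=
  (nv_le_iff (nv_nonneg w)).mp le_rfl a

theorem nv_pos {w : Fin k → L} (hw : w ≠ 0) : 0 < nv v w := by
  obtain ⟨a, ha⟩ := Function.ne_iff.mp hw
  exact (v.pos ha).trans_le (le_nv w a)

theorem nv_zero : nv v (0 : Fin k → L) = 0 :=
  le_antisymm ((nv_le_iff le_rfl).mpr (by simp)) (nv_nonneg _)

theorem nv_sub (hna : ∀ x y : L, v (x + y) ≤ max (v x) (v y)) (w w' : Fin k → L) :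
    nv v (w - w') ≤ max (nv v w) (nv v w') := by
  rw [nv_le_iff (le_max_of_le_left (nv_nonneg w))]
  intro a
  exact (v_sub hna _ _).trans (max_le_max (le_nv w a) (le_nv w' a))

theorem nv_add (hna : ∀ x y : L, v (x + y) ≤ max (v x) (v y)) (w w' : Fin k → L) :
    nv v (w + w') ≤ max (nv v w) (nv v w') := by
  rw [nv_le_iff (le_max_of_le_left (nv_nonneg w))]
  intro a
  exact (hna _ _).trans (max_le_max (le_nv w a) (le_nv w' a))

theorem nv_smul (c : L) (w : Fin k → L) : nv v (c • w) = v c * nv v w := by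
  apply le_antisymm
  · rw [nv_le_iff (mul_nonneg (v.nonneg _) (nv_nonneg w))]
    intro a
    rw [Pi.smul_apply, smul_eq_mul, v.map_mul]
    exact mul_le_mul_of_nonneg_left (le_nv w a) (v.nonneg _)
  · by_cases hc : c = 0
    · rw [hc, v.map_zero, zero_mul]; exact nv_nonneg _
    · have hvc : 0 < v c := v.pos hc
      rw [← le_div_iff₀' hvc, nv_le_iff (div_nonneg (nv_nonneg _) hvc.le)]
      intro a
      rw [le_div_iff₀' hvc, ← v.map_mul]
      exact le_nv (c • w) a

/-- a vector close to a multiple of `w` -/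
theorem nv_eq (hna : ∀ x y : L, v (x + y) ≤ max (v x) (v y)) {w w' : Fin k → L} {c : L}
    (h : nv v (w' - c • w) < v c * nv v w) : nv v w' = v c * nv v w := by
  apply le_antisymm
  · have h1 := nv_add hna (w' - c • w) (c • w)
    rw [sub_add_cancel, nv_smul] at h1
    exact h1.trans (max_le h.le le_rfl)
  · have h1 := nv_sub hna w' (w' - c • w)
    rw [sub_sub_cancel, nv_smul] at h1
    rcases le_max_iff.mp h1 with h2 | h2
    · exact h2
    · exact absurd (h2.trans_lt h) (lt_irrefl _)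

theorem m_mul (hna : ∀ x y : L, v (x + y) ≤ max (v x) (v y)) {A B : Matrix (Fin k) (Fin k) L}
    {r s : ℝ} (hr : 0 ≤ r) (hs : 0 ≤ s) (hA : ∀ a b, v (A a b) ≤ r) (hB : ∀ a b, v (B a b) ≤ s)
    (a b : Fin k) : v ((A * B) a b) ≤ r * s := by
  rw [Matrix.mul_apply]
  refine v_sum hna _ _ (mul_nonneg hr hs) fun i _ => ?_
  rw [v.map_mul]
  exact mul_le_mul (hA a i) (hB i b) (v.nonneg _) hr

theorem m_one (a b : Fin k) : v ((1 : Matrix (Fin k) (Fin k) L) a b) ≤ 1 := by
  rw [Matrix.one_apply]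
  split_ifs <;> simp

theorem m_pow (hna : ∀ x y : L, v (x + y) ≤ max (v x) (v y)) {A : Matrix (Fin k) (Fin k) L}
    (hA : ∀ a b, v (A a b) ≤ 1) (n : ℕ) : ∀ a b, v ((A ^ n) a b) ≤ 1 := by
  induction n with
  | zero => intro a b; rw [pow_zero]; exact m_one a b
  | succ n ih =>
    intro a b
    rw [pow_succ]
    simpa using m_mul hna zero_le_one zero_le_one ih hA a b

theorem m_sum (hna : ∀ x y : L, v (x + y) ≤ max (v x) (v y)) {ι : Type*} (s : Finset ι)
    (f : ι → Matrix (Fin k) (Fin k) L) {r : ℝ} (hr : 0 ≤ r) (h : ∀ i ∈ s, ∀ a b, v (f i a b) ≤ r)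
    (a b : Fin k) : v ((∑ i ∈ s, f i) a b) ≤ r := by
  rw [Matrix.sum_apply]
  exact v_sum hna s _ hr fun i hi => h i hi a b

theorem m_geom (hna : ∀ x y : L, v (x + y) ≤ max (v x) (v y)) {A : Matrix (Fin k) (Fin k) L} {l : ℝ}
    (hl : 0 ≤ l) (hA : ∀ a b, v (A a b) ≤ 1) (hA1 : ∀ a b, v ((A - 1) a b) ≤ l) (n : ℕ) (a b : Fin k) :
    v ((A ^ n - 1) a b) ≤ l := by
  rw [← mul_geom_sum]
  have := m_mul hna hl zero_le_one hA1
    (m_sum hna (Finset.range n) (fun i => A ^ i) zero_le_one fun i _ => m_pow hna hA i) a b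
  simpa using this

theorem m_sumsub (hna : ∀ x y : L, v (x + y) ≤ max (v x) (v y)) {A : Matrix (Fin k) (Fin k) L}
    {l : ℝ} (hl : 0 ≤ l) (hA : ∀ a b, v (A a b) ≤ 1) (hA1 : ∀ a b, v ((A - 1) a b) ≤ l) (n : ℕ)
    (a b : Fin k) : v ((∑ t ∈ Finset.range n, (A ^ t - 1)) a b) ≤ l :=
  m_sum hna _ _ hl (fun t _ => m_geom hna hl hA hA1 t) a b

theorem sum_pow_eq (A : Matrix (Fin k) (Fin k) L) (n : ℕ) :
    ∑ t ∈ Finset.range n, A ^ t = (n : Matrix (Fin k) (Fin k) L) +
      ∑ t ∈ Finset.range n, (A ^ t - 1) := by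
  rw [Finset.sum_sub_distrib]
  simp

theorem m_natCast (n : ℕ) (a b : Fin k) :
    v ((n : Matrix (Fin k) (Fin k) L) a b) ≤ v (n : L) := by
  rw [← Matrix.diagonal_natCast, Matrix.diagonal_apply]
  split_ifs
  · exact le_rfl
  · rw [v.map_zero]; exact v.nonneg _

theorem m_add (hna : ∀ x y : L, v (x + y) ≤ max (v x) (v y)) {A B : Matrix (Fin k) (Fin k) L}
    {r : ℝ} (hA : ∀ a b, v (A a b) ≤ r) (hB : ∀ a b, v (B a b) ≤ r)
    (a b : Fin k) : v ((A + B) a b) ≤ r := by
  rw [Matrix.add_apply]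
  exact (hna _ _).trans (max_le (hA a b) (hB a b))

theorem nv_mulVec (hna : ∀ x y : L, v (x + y) ≤ max (v x) (v y)) {A : Matrix (Fin k) (Fin k) L}
    {r : ℝ} (hr : 0 ≤ r) (hA : ∀ a b, v (A a b) ≤ r) (w : Fin k → L) :
    nv v (A.mulVec w) ≤ r * nv v w := by
  rw [nv_le_iff (mul_nonneg hr (nv_nonneg w))]
  intro a
  rw [Matrix.mulVec, dotProduct]
  refine v_sum hna _ _ (mul_nonneg hr (nv_nonneg w)) fun i _ => ?_
  rw [v.map_mul]
  exact mul_le_mul (hA a i) (le_nv w i) (v.nonneg _) hr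

end Pool.Agent.N491.UB
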