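import Mathlib
import Pool.Agent.N491.UB.NA

/-!
# Project UB (helper236): the abstract periodicity lemma (helper491)
-/

set_option autoImplicit false

open Polynomial

namespace Pool.Agent.N491.UB

variable {L : Type} [Field L] {v : AbsoluteValue L ℝ} {k : ℕ}

/-- key estimate: displacement after `i * j` steps -/
theorem key (hna : ∀ x y : L, v (x + y) ≤ max (v x) (v y)) {w w' : Fin k → L}
    {A : Matrix (Fin k) (Fin k) L} {l : ℝ} (hl : 0 ≤ l) (hA : ∀ a b, v (A a b) ≤ 1)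
    (hA1 : ∀ a b, v ((A - 1) a b) ≤ l) (i : ℕ)
    (h : ∀ a, v ((w' - (∑ t ∈ Finset.range i, A ^ t).mulVec w) a) ≤ nv v w * nv v w) :
    nv v (w' - (i : L) • w) ≤ max (l * nv v w) (nv v w * nv v w) := by
  have h1 : w' - (i : L) • w = (∑ t ∈ Finset.range i, (A ^ t - 1)).mulVec w +
      (w' - (∑ t ∈ Finset.range i, A ^ t).mulVec w) := by
    rw [sum_pow_eq, Matrix.add_mulVec]
    have : (i : Matrix (Fin k) (Fin k) L).mulVec w = (i : L) • w := by
      rw [← Matrix.diagonal_natCast]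
      ext a
      simp [Matrix.mulVec_diagonal]
    rw [this]
    abel
  rw [h1]
  refine (nv_add hna _ _).trans (max_le_max ?_ ?_)
  · exact nv_mulVec hna hl (m_sumsub hna hl hA hA1 i) w
  · exact (nv_le_iff (mul_nonneg (nv_nonneg w) (nv_nonneg w))).mpr h

/-- `A ^ p` is closer to `1` than `A` -/
theorem powp (hna : ∀ x y : L, v (x + y) ≤ max (v x) (v y)) {A : Matrix (Fin k) (Fin k) L} {l : ℝ}
    (hl : 0 ≤ l) (hA : ∀ a b, v (A a b) ≤ 1) (hA1 : ∀ a b, v ((A - 1) a b) ≤ l) (p : ℕ) (θ : ℝ)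
    (hlθ : l ≤ θ) (hp : v (p : L) ≤ θ) (a b : Fin k) : v ((A ^ p - 1) a b) ≤ θ * l := by
  rw [← mul_geom_sum, mul_comm θ l, sum_pow_eq]
  exact m_mul hna hl (hl.trans hlθ) hA1
    (m_add hna (fun a b => (m_natCast p a b).trans hp)
      (fun a b => (m_sumsub hna hl hA hA1 p a b).trans hlθ)) a b

theorem t_abs : Pool.Agent.N236.UB.S_ABS := by
  intro L _ v p q e k g hloc hp hg w A hw hA hA1 hdvd h5 h6 hN
  obtain ⟨hna, ⟨ϖ, hϖ0, hϖ1, hϖ, hϖe⟩, hvp, -⟩ := hloc
  set θ : ℝ := v ϖ with hθ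
  have hvpθ : v (p : L) ≤ θ := hϖ _ hvp
  by_contra hne
  have hpp : 0 < p := hp.pos
  have hM1 : ∀ j : ℕ, 1 ≤ g * p ^ j := fun j => Nat.mul_pos hg (pow_pos hpp j)
  have hw1 : w 1 ≠ 0 := by
    intro h
    apply hne
    have := hdvd (g * p ^ (e + 1)) 1 (hM1 _) le_rfl h
    rwa [mul_one] at this
  have hwM : ∀ j ≤ e + 1, w (g * p ^ j) ≠ 0 := by
    intro j hj h
    apply hne
    have := hdvd (p ^ (e + 1 - j)) (g * p ^ j) (pow_pos hpp _) (hM1 _) h
    rwa [show p ^ (e + 1 - j) * (g * p ^ j) = g * p ^ (e + 1) by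
      rw [mul_left_comm, ← pow_add, Nat.sub_add_cancel hj]] at this
  have hnvθ : ∀ j, 1 ≤ j → nv v (w j) ≤ θ := by
    intro j hj
    rw [nv_le_iff hϖ0.le]
    exact fun a => hϖ _ (hw j a hj)
  -- entries of `A (i j) - A j ^ i`
  have h6' : ∀ i j, 1 ≤ i → 1 ≤ j → w (i * j) ≠ 0 →
      ∀ a b, v ((A (i * j) - A j ^ i) a b) ≤ nv v (w j) :=
    fun i j hi hj h => h6 i j hi hj h _ (le_nv (w j))
  have h5' : ∀ i j, 1 ≤ i → 1 ≤ j → w j ≠ 0 →
      ∀ a, v ((w (i * j) - (∑ t ∈ Finset.range i, A j ^ t).mulVec (w j)) a) ≤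
        nv v (w j) * nv v (w j) :=
    fun i j hi hj h => h5 i j hi hj h _ (le_nv (w j))
  have hMs : ∀ j : ℕ, p * (g * p ^ j) = g * p ^ (j + 1) := by
    intro j; rw [pow_succ]; ring
  -- the step for the matrices
  have stepA : ∀ (j : ℕ) (l : ℝ), 0 ≤ l → l ≤ θ → w (g * p ^ (j + 1)) ≠ 0 →
      (∀ a b, v ((A (g * p ^ j) - 1) a b) ≤ l) →
      ∀ a b, v ((A (g * p ^ (j + 1)) - 1) a b) ≤ max (θ * l) (nv v (w (g * p ^ j))) := by
    intro j l hl hlθ hwj hAl a b
    have h1 := h6' p (g * p ^ j) hpp (hM1 j) (by rw [hMs]; exact hwj)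
    rw [hMs] at h1
    have h2 : A (g * p ^ (j + 1)) - 1 = (A (g * p ^ j) ^ p - 1) +
        (A (g * p ^ (j + 1)) - A (g * p ^ j) ^ p) := by abel
    rw [h2]
    exact m_add hna
      (fun a b => (powp hna hl (fun a b => hA _ a b (hM1 j)) hAl p θ hlθ hvpθ a b).trans
        (le_max_left _ _))
      (fun a b => (h1 a b).trans (le_max_right _ _)) a b
  -- the step for the displacement
  have stepW : ∀ (i j : ℕ) (l : ℝ), 1 ≤ i → 1 ≤ j → 0 ≤ l → w j ≠ 0 →
      (∀ a b, v ((A j - 1) a b) ≤ l) →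
      nv v (w (i * j) - (i : L) • w j) ≤ max (l * nv v (w j)) (nv v (w j) * nv v (w j)) :=
    fun i j l hi hj hl hwj hAl => key hna hl (fun a b => hA _ a b hj) hAl i (h5' i j hi hj hwj)
  -- first phase
  have phase1 : ∀ j ≤ e + 1, nv v (w (g * p ^ j)) ≤ θ ^ (j + 1) ∧
      ∀ a b, v ((A (g * p ^ j) - 1) a b) ≤ θ ^ (max j 1) := by
    intro j
    induction j with
    | zero =>
      intro _
      have hw0 : w (g * 1) ≠ 0 := by
        have := hwM 0 (Nat.zero_le _)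
        rwa [pow_zero] at this
      refine ⟨by simpa using hnvθ _ (hM1 0), ?_⟩
      intro a b
      rw [pow_zero, show max 0 1 = 1 from rfl, pow_one]
      have h1 := h6' g 1 hg le_rfl hw0
      have h2 : A (g * 1) - 1 = (A 1 ^ g - 1) + (A (g * 1) - A 1 ^ g) := by abel
      rw [h2]
      exact m_add hna (fun a b => hϖ _ (hA1 hw1 a b))
        (fun a b => (h1 a b).trans (hnvθ 1 le_rfl)) a b
    | succ j ih =>
      intro hj
      obtain ⟨ih1, ih2⟩ := ih (by omega)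
      have hpow1 : θ ^ (max j 1) ≤ θ := by
        calc θ ^ (max j 1) ≤ θ ^ 1 := pow_le_pow_of_le_one hϖ0.le hϖ1.le (le_max_right _ _)
          _ = θ := pow_one _
      have hpow0 : 0 ≤ θ ^ (max j 1) := pow_nonneg hϖ0.le _
      have hwj : w (g * p ^ j) ≠ 0 := hwM j (by omega)
      have hwj1 : w (g * p ^ (j + 1)) ≠ 0 := hwM (j + 1) hj
      constructor
      · have h1 := stepW p (g * p ^ j) _ hpp (hM1 j) hpow0 hwj ih2
        rw [hMs] at h1
        have h2 := nv_add hna (w (g * p ^ (j + 1)) - (p : L) • w (g * p ^ j))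
          ((p : L) • w (g * p ^ j))
        rw [sub_add_cancel, nv_smul] at h2
        have h3 : nv v (w (g * p ^ j)) ≤ θ := hnvθ _ (hM1 j)
        have h4 : θ ^ (max j 1) * nv v (w (g * p ^ j)) ≤ θ * nv v (w (g * p ^ j)) :=
          mul_le_mul_of_nonneg_right hpow1 (nv_nonneg _)
        have h5 : nv v (w (g * p ^ j)) * nv v (w (g * p ^ j)) ≤ θ * nv v (w (g * p ^ j)) :=
          mul_le_mul_of_nonneg_right h3 (nv_nonneg _)
        have h6 : v (p : L) * nv v (w (g * p ^ j)) ≤ θ * nv v (w (g * p ^ j)) :=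
          mul_le_mul_of_nonneg_right hvpθ (nv_nonneg _)
        have h7 : θ * nv v (w (g * p ^ j)) ≤ θ ^ (j + 1 + 1) := by
          rw [pow_succ' θ (j + 1)]
          exact mul_le_mul_of_nonneg_left ih1 hϖ0.le
        exact (h2.trans (max_le (h1.trans (max_le h4 h5)) h6)).trans h7
      · intro a b
        refine (stepA j _ hpow0 hpow1 hwj1 ih2 a b).trans (max_le ?_ ?_)
        · rw [← pow_succ']
          exact pow_le_pow_of_le_one hϖ0.le hϖ1.le (by omega)
        · rw [show max (j + 1) 1 = j + 1 by omega]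
          exact ih1
  have hvp0 : 0 < v (p : L) := (pow_pos hϖ0 e).trans_le hϖe
  have hθe1 : θ ^ (e + 1) < v (p : L) := by
    calc θ ^ (e + 1) < θ ^ e := pow_lt_pow_right_of_lt_one₀ hϖ0 hϖ1 (Nat.lt_succ_self e)
      _ ≤ v (p : L) := hϖe
  -- second phase
  have phase2 : ∀ n : ℕ, w (g * p ^ (e + 1 + n)) ≠ 0 ∧
      nv v (w (g * p ^ (e + 1 + n))) ≤ θ ^ (e + 1) ∧
      ∀ a b, v ((A (g * p ^ (e + 1 + n)) - 1) a b) ≤ θ ^ (e + 1) := by
    intro n
    induction n with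
    | zero =>
      refine ⟨hwM _ le_rfl, ?_, ?_⟩
      · exact (phase1 (e + 1) le_rfl).1.trans
          (pow_le_pow_of_le_one hϖ0.le hϖ1.le (Nat.le_succ _))
      · intro a b
        exact ((phase1 (e + 1) le_rfl).2 a b).trans
          (pow_le_pow_of_le_one hϖ0.le hϖ1.le (le_max_left _ _))
    | succ n ih =>
      obtain ⟨i1, i2, i3⟩ := ih
      have hpos := nv_pos (v := v) i1
      have h1 := stepW p (g * p ^ (e + 1 + n)) _ hpp (hM1 _) (pow_nonneg hϖ0.le _) i1 i3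
      rw [hMs] at h1
      have h2 : nv v (w (g * p ^ (e + 1 + n + 1)) - (p : L) • w (g * p ^ (e + 1 + n))) <
          v (p : L) * nv v (w (g * p ^ (e + 1 + n))) := by
        refine h1.trans_lt (max_lt ?_ ?_)
        · exact mul_lt_mul_of_pos_right hθe1 hpos
        · exact mul_lt_mul_of_pos_right (i2.trans_lt hθe1) hpos
      have h3 := nv_eq hna h2
      have hne' : w (g * p ^ (e + 1 + n + 1)) ≠ 0 := by
        intro h0
        rw [h0, nv_zero] at h3
        exact absurd h3 (mul_pos hvp0 hpos).ne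
      refine ⟨hne', ?_, ?_⟩
      · rw [← add_assoc, h3]
        calc v (p : L) * nv v (w (g * p ^ (e + 1 + n))) ≤ 1 * nv v (w (g * p ^ (e + 1 + n))) :=
              mul_le_mul_of_nonneg_right hvp.le (nv_nonneg _)
          _ ≤ θ ^ (e + 1) := by rw [one_mul]; exact i2
      · intro a b
        have hθ1 : θ ^ (e + 1) ≤ θ := by
          calc θ ^ (e + 1) ≤ θ ^ 1 := pow_le_pow_of_le_one hϖ0.le hϖ1.le (by omega)
            _ = θ := pow_one _
        refine (stepA (e + 1 + n) _ (pow_nonneg hϖ0.le _) hθ1 hne' i3 a b).trans (max_le ?_ i2)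
        calc θ * θ ^ (e + 1) ≤ 1 * θ ^ (e + 1) :=
              mul_le_mul_of_nonneg_right hϖ1.le (pow_nonneg hϖ0.le _)
          _ = θ ^ (e + 1) := one_mul _
  -- conclusion
  obtain ⟨N, hN1, hwN⟩ := hN
  obtain ⟨t, c, hc, hNc⟩ := Nat.exists_eq_pow_mul_and_not_dvd (n := N) (by omega) p hp.ne_one
  obtain ⟨i1, i2, i3⟩ := phase2 t
  have hc1 : 1 ≤ c := Nat.one_le_iff_ne_zero.mpr fun h => hc (h ▸ dvd_zero p)
  have hwc : w (c * (g * p ^ (e + 1 + t))) = 0 := by
    have := hdvd (g * p ^ (e + 1)) N (hM1 _) hN1 hwN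
    rwa [hNc, show g * p ^ (e + 1) * (p ^ t * c) = c * (g * p ^ (e + 1 + t)) by
      rw [pow_add p (e + 1) t]; ring] at this
  have hpos := nv_pos (v := v) i1
  have h1 := stepW c (g * p ^ (e + 1 + t)) _ hc1 (hM1 _) (pow_nonneg hϖ0.le _) i1 i3
  have hvc : v (c : L) = 1 := v_coprime hna hp hvp hc
  have hlt1 : θ ^ (e + 1) < 1 := hθe1.trans hvp
  have h2 : nv v (w (c * (g * p ^ (e + 1 + t))) - (c : L) • w (g * p ^ (e + 1 + t))) <
      v (c : L) * nv v (w (g * p ^ (e + 1 + t))) := by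
    rw [hvc]
    refine h1.trans_lt (max_lt ?_ ?_)
    · exact mul_lt_mul_of_pos_right hlt1 hpos
    · exact mul_lt_mul_of_pos_right (i2.trans_lt hlt1) hpos
  have h3 := nv_eq hna h2
  rw [hwc, nv_zero, hvc, one_mul] at h3
  exact absurd h3 hpos.ne

end Pool.Agent.N491.UB
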