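import Mathlib
import Pool.Agent.N491.UB.NA

/-!
# Project UB (helper236): Dickson polynomials are separated (helper491)
-/

set_option autoImplicit false

open Polynomial

namespace Pool.Agent.N491.UB

section general

variable {R : Type*} [CommRing R]

theorem ev0 (a x : R) : (dickson 1 a 0).eval x = 2 := by
  rw [dickson_zero]
  simp
  norm_num

theorem ev1 (a x : R) : (dickson 1 a 1).eval x = x := by
  rw [dickson_one, eval_X]

theorem ev2 (a x : R) (n : ℕ) : (dickson 1 a (n + 2)).eval x =
    x * (dickson 1 a (n + 1)).eval x - a * (dickson 1 a n).eval x := by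
  rw [dickson_add_two]
  simp

theorem scale (b x t : R) (n : ℕ) : (dickson 1 (x ^ 2 * b) n).eval (x * t) =
    x ^ n * (dickson 1 b n).eval t := by
  induction n using Nat.twoStepInduction with
  | zero => rw [ev0, ev0]; simp
  | one => rw [ev1, ev1]; simp
  | more n ih1 ih2 => rw [ev2, ev2, ih1, ih2]; ring

end general

variable {L : Type} [Field L] {v : AbsoluteValue L ℝ}

/-- size of the Taylor coefficients -/
theorem taylor_le (hna : ∀ x y : L, v (x + y) ≤ max (v x) (v y)) {α x : L} {s : ℝ} (hs : 0 < s)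
    (hx : v x ≤ s) (hα : v α ≤ s ^ 2) (n : ℕ) :
    ∀ i : ℕ, v ((taylor x (dickson 1 α n)).coeff i) * s ^ i ≤ s ^ n := by
  induction n using Nat.twoStepInduction with
  | zero =>
    intro i
    have h0 : dickson 1 α 0 = C (2 : L) := by
      rw [dickson_zero]
      have : (C (2 : L) : L[X]) = 2 := Polynomial.C_ofNat 2
      rw [this]
      norm_num
    rw [h0, taylor_C, coeff_C]
    split_ifs with hi
    · rw [hi, pow_zero, mul_one]
      exact_mod_cast v_nat hna 2
    · simp
  | one =>
    intro i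
    rw [dickson_one, taylor_X, coeff_add, coeff_X, coeff_C]
    rcases i with _ | _ | i
    · simpa using hx
    · simp
    · simp [hs.le]
  | more n ih1 ih2 =>
    intro i
    rw [dickson_add_two, map_sub, taylor_mul, taylor_mul, taylor_X, taylor_C, coeff_sub, add_mul,
      coeff_add, coeff_C_mul, coeff_C_mul]
    have h1 : v ((X * taylor x (dickson 1 α (n + 1))).coeff i) * s ^ i ≤ s ^ (n + 2) := by
      rcases i with _ | i
      · simp [hs.le]
      · rw [coeff_X_mul]
        calc v ((taylor x (dickson 1 α (n + 1))).coeff i) * s ^ (i + 1)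
            = (v ((taylor x (dickson 1 α (n + 1))).coeff i) * s ^ i) * s := by ring
          _ ≤ s ^ (n + 1) * s := mul_le_mul_of_nonneg_right (ih2 i) hs.le
          _ = s ^ (n + 2) := by ring
    have h2 : v (x * (taylor x (dickson 1 α (n + 1))).coeff i) * s ^ i ≤ s ^ (n + 2) := by
      rw [v.map_mul]
      calc v x * v ((taylor x (dickson 1 α (n + 1))).coeff i) * s ^ i
          = v x * (v ((taylor x (dickson 1 α (n + 1))).coeff i) * s ^ i) := by ring
        _ ≤ s * s ^ (n + 1) := mul_le_mul hx (ih2 i) (by positivity) hs.le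
        _ = s ^ (n + 2) := by ring
    have h3 : v (α * (taylor x (dickson 1 α n)).coeff i) * s ^ i ≤ s ^ (n + 2) := by
      rw [v.map_mul]
      calc v α * v ((taylor x (dickson 1 α n)).coeff i) * s ^ i
          = v α * (v ((taylor x (dickson 1 α n)).coeff i) * s ^ i) := by ring
        _ ≤ s ^ 2 * s ^ n := mul_le_mul hα (ih1 i) (by positivity) (by positivity)
        _ = s ^ (n + 2) := by ring
    rw [← le_div_iff₀ (pow_pos hs i)] at h1 h2 h3 ⊢
    exact (v_sub hna _ _).trans (max_le ((hna _ _).trans (max_le h1 h2)) h3)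

/-- separation from the lower bound for the difference -/
theorem sep_of_lower (hna : ∀ x y : L, v (x + y) ≤ max (v x) (v y)) {α x y : L} {s : ℝ}
    (hs : 0 < s) (hx : v x ≤ s) (hy : v y ≤ s) (hα : v α ≤ s ^ 2) (l : ℕ)
    (h : s ^ l * v (y - x) ≤ s * v ((dickson 1 α l).eval y - (dickson 1 α l).eval x)) (i : ℕ)
    (hi : 1 ≤ i) : v ((taylor x (dickson 1 α l)).coeff i) * v (y - x) ^ i ≤
      v ((dickson 1 α l).eval y - (dickson 1 α l).eval x) := by
  obtain ⟨j, rfl⟩ : ∃ j, i = j + 1 := ⟨i - 1, by omega⟩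
  have hδ : v (y - x) ≤ s := (v_sub hna y x).trans (max_le hy hx)
  have h1 := taylor_le hna hs hx hα l (j + 1)
  have h2 : v (y - x) ^ j ≤ s ^ j := pow_le_pow_left₀ (v.nonneg _) hδ j
  refine le_of_mul_le_mul_left ?_ hs
  calc s * (v ((taylor x (dickson 1 α l)).coeff (j + 1)) * v (y - x) ^ (j + 1))
      = (s * v ((taylor x (dickson 1 α l)).coeff (j + 1)) * v (y - x)) * v (y - x) ^ j := by ring
    _ ≤ (s * v ((taylor x (dickson 1 α l)).coeff (j + 1)) * v (y - x)) * s ^ j :=
        mul_le_mul_of_nonneg_left h2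
          (mul_nonneg (mul_nonneg hs.le (v.nonneg _)) (v.nonneg _))
    _ = (v ((taylor x (dickson 1 α l)).coeff (j + 1)) * s ^ (j + 1)) * v (y - x) := by ring
    _ ≤ s ^ l * v (y - x) := mul_le_mul_of_nonneg_right h1 (v.nonneg _)
    _ ≤ _ := h

/-- Case A: the parameter dominates. -/
theorem caseA (hna : ∀ x y : L, v (x + y) ≤ max (v x) (v y)) {α x y : L} {s μ : ℝ}
    (hs : 0 < s) (hx : v x ≤ μ) (hy : v y ≤ μ) (hμ0 : 0 ≤ μ) (hμ : μ < s) (hα : v α = s ^ 2)
    (hxy : x ≠ y) (m : ℕ) :
    v ((dickson 1 α (2 * m)).eval x - 2 * (-α) ^ m) < s ^ (2 * m) ∧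
    v ((dickson 1 α (2 * m + 1)).eval x) ≤ μ * s ^ (2 * m) ∧
    v ((dickson 1 α (2 * m)).eval y - (dickson 1 α (2 * m)).eval x) * s ^ 2 ≤
      μ * s ^ (2 * m) * v (y - x) ∧
    v ((dickson 1 α (2 * m + 1)).eval y - (dickson 1 α (2 * m + 1)).eval x -
      ((2 * m + 1 : ℕ) : L) * (-α) ^ m * (y - x)) < s ^ (2 * m) * v (y - x) := by
  have hδ : 0 < v (y - x) := v.pos (sub_ne_zero.mpr hxy.symm)
  induction m with
  | zero =>
    simp only [mul_zero, zero_add, ev0, ev1, pow_zero, mul_one, Nat.cast_one, one_mul, sub_self,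
      map_zero, zero_mul]
    exact ⟨zero_lt_one, hx, mul_nonneg hμ0 hδ.le, hδ⟩
  | succ m ih =>
    obtain ⟨i1, i2, i3, i4⟩ := ih
    have e1 : (dickson 1 α (2 * (m + 1))).eval x =
        x * (dickson 1 α (2 * m + 1)).eval x - α * (dickson 1 α (2 * m)).eval x := by
      rw [show 2 * (m + 1) = 2 * m + 2 by ring, ev2]
    have e1' : (dickson 1 α (2 * (m + 1))).eval y =
        y * (dickson 1 α (2 * m + 1)).eval y - α * (dickson 1 α (2 * m)).eval y := by
      rw [show 2 * (m + 1) = 2 * m + 2 by ring, ev2]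
    have e2 : (dickson 1 α (2 * (m + 1) + 1)).eval x =
        x * (dickson 1 α (2 * (m + 1))).eval x - α * (dickson 1 α (2 * m + 1)).eval x := by
      rw [show 2 * (m + 1) + 1 = (2 * m + 1) + 2 by ring, ev2,
        show 2 * m + 1 + 1 = 2 * (m + 1) by ring]
    have e2' : (dickson 1 α (2 * (m + 1) + 1)).eval y =
        y * (dickson 1 α (2 * (m + 1))).eval y - α * (dickson 1 α (2 * m + 1)).eval y := by
      rw [show 2 * (m + 1) + 1 = (2 * m + 1) + 2 by ring, ev2,
        show 2 * m + 1 + 1 = 2 * (m + 1) by ring]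
    set A0 := (dickson 1 α (2 * m)).eval x with hA0
    set A1 := (dickson 1 α (2 * m + 1)).eval x with hA1
    set A2 := (dickson 1 α (2 * (m + 1))).eval x with hA2
    set B0 := (dickson 1 α (2 * m)).eval y with hB0
    set B1 := (dickson 1 α (2 * m + 1)).eval y with hB1
    set B2 := (dickson 1 α (2 * (m + 1))).eval y with hB2
    have hs2 : 0 < s ^ 2 := by positivity
    have hsm : 0 < s ^ (2 * m) := by positivity
    have hpow : s ^ (2 * (m + 1)) = s ^ 2 * s ^ (2 * m) := by ring
    have hμs : μ * μ < s ^ 2 := by nlinarith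
    have hv2 : v (2 : L) ≤ 1 := by exact_mod_cast v_nat hna 2
    have hαm : v ((-α) ^ m) = s ^ (2 * m) := by
      rw [v.map_pow, v.map_neg, hα, ← pow_mul]
    have hαm1 : v ((-α) ^ (m + 1)) = s ^ (2 * (m + 1)) := by
      rw [v.map_pow, v.map_neg, hα, ← pow_mul]
    -- first
    have j1 : v (A2 - 2 * (-α) ^ (m + 1)) < s ^ (2 * (m + 1)) := by
      have : A2 - 2 * (-α) ^ (m + 1) = x * A1 - α * (A0 - 2 * (-α) ^ m) := by
        rw [e1]; ring
      rw [this, hpow]
      refine (v_sub hna _ _).trans_lt (max_lt ?_ ?_)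
      · rw [v.map_mul]
        calc v x * v A1 ≤ μ * (μ * s ^ (2 * m)) := mul_le_mul hx i2 (v.nonneg _) hμ0
          _ = (μ * μ) * s ^ (2 * m) := by ring
          _ < s ^ 2 * s ^ (2 * m) := mul_lt_mul_of_pos_right hμs hsm
      · rw [v.map_mul, hα]
        exact mul_lt_mul_of_pos_left i1 hs2
    have j1' : v A2 ≤ s ^ (2 * (m + 1)) := by
      have h := hna (A2 - 2 * (-α) ^ (m + 1)) (2 * (-α) ^ (m + 1))
      rw [sub_add_cancel] at h
      refine h.trans (max_le j1.le ?_)
      rw [v.map_mul, hαm1]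
      calc v (2 : L) * s ^ (2 * (m + 1)) ≤ 1 * s ^ (2 * (m + 1)) :=
            mul_le_mul_of_nonneg_right hv2 (by positivity)
        _ = _ := one_mul _
    -- second
    have j2 : v (x * A2 - α * A1) ≤ μ * s ^ (2 * (m + 1)) := by
      refine (v_sub hna _ _).trans (max_le ?_ ?_)
      · rw [v.map_mul]
        exact mul_le_mul hx j1' (v.nonneg _) hμ0
      · rw [v.map_mul, hα, hpow]
        calc s ^ 2 * v A1 ≤ s ^ 2 * (μ * s ^ (2 * m)) := mul_le_mul_of_nonneg_left i2 hs2.le
          _ = μ * (s ^ 2 * s ^ (2 * m)) := by ring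
    -- size of the odd difference
    have i4' : v (B1 - A1) ≤ s ^ (2 * m) * v (y - x) := by
      have h := hna (B1 - A1 - ((2 * m + 1 : ℕ) : L) * (-α) ^ m * (y - x))
        (((2 * m + 1 : ℕ) : L) * (-α) ^ m * (y - x))
      rw [sub_add_cancel] at h
      refine h.trans (max_le i4.le ?_)
      rw [v.map_mul, v.map_mul, hαm]
      calc v ((2 * m + 1 : ℕ) : L) * s ^ (2 * m) * v (y - x) ≤ 1 * s ^ (2 * m) * v (y - x) := by
            gcongr
            exact v_nat hna _
        _ = _ := by ring
    -- third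
    have j3 : v (B2 - A2) ≤ μ * s ^ (2 * m) * v (y - x) := by
      have : B2 - A2 = (y * (B1 - A1) + (y - x) * A1) - α * (B0 - A0) := by
        rw [e1, e1']; ring
      rw [this]
      refine (v_sub hna _ _).trans (max_le ((hna _ _).trans (max_le ?_ ?_)) ?_)
      · rw [v.map_mul]
        calc v y * v (B1 - A1) ≤ μ * (s ^ (2 * m) * v (y - x)) :=
              mul_le_mul hy i4' (v.nonneg _) hμ0
          _ = _ := by ring
      · rw [v.map_mul]
        calc v (y - x) * v A1 ≤ v (y - x) * (μ * s ^ (2 * m)) :=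
              mul_le_mul_of_nonneg_left i2 hδ.le
          _ = _ := by ring
      · rw [v.map_mul, hα, mul_comm]
        exact i3
    -- fourth
    have j4 : v ((y * B2 - α * B1) - (x * A2 - α * A1) -
        ((2 * (m + 1) + 1 : ℕ) : L) * (-α) ^ (m + 1) * (y - x)) < s ^ (2 * (m + 1)) * v (y - x) := by
      have : (y * B2 - α * B1) - (x * A2 - α * A1) -
          ((2 * (m + 1) + 1 : ℕ) : L) * (-α) ^ (m + 1) * (y - x) =
          (y * (B2 - A2) + (y - x) * (A2 - 2 * (-α) ^ (m + 1))) -
            α * (B1 - A1 - ((2 * m + 1 : ℕ) : L) * (-α) ^ m * (y - x)) := by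
        push_cast
        ring
      rw [this, hpow]
      refine (v_sub hna _ _).trans_lt (max_lt ((hna _ _).trans_lt (max_lt ?_ ?_)) ?_)
      · rw [v.map_mul]
        calc v y * v (B2 - A2) ≤ μ * (μ * s ^ (2 * m) * v (y - x)) :=
              mul_le_mul hy j3 (v.nonneg _) hμ0
          _ = (μ * μ) * (s ^ (2 * m) * v (y - x)) := by ring
          _ < s ^ 2 * (s ^ (2 * m) * v (y - x)) :=
              mul_lt_mul_of_pos_right hμs (mul_pos hsm hδ)
          _ = _ := by ring
      · rw [v.map_mul, ← hpow, mul_comm]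
        exact mul_lt_mul_of_pos_right j1 hδ
      · rw [v.map_mul, hα]
        calc s ^ 2 * v (B1 - A1 - ((2 * m + 1 : ℕ) : L) * (-α) ^ m * (y - x)) <
              s ^ 2 * (s ^ (2 * m) * v (y - x)) := mul_lt_mul_of_pos_left i4 hs2
          _ = _ := by ring
    refine ⟨j1, ?_, ?_, ?_⟩
    · rw [e2]; exact j2
    · rw [hpow]
      calc v (B2 - A2) * s ^ 2 ≤ (μ * s ^ (2 * m) * v (y - x)) * s ^ 2 :=
            mul_le_mul_of_nonneg_right j3 hs2.le
        _ = _ := by ring
    · rw [e2, e2']; exact j4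

/-- Case B: `x` dominates. -/
theorem caseB (hk : Pool.Agent.N236.UB.S_DICK) {p q e l : ℕ} {α x y : L}
    (hloc : Pool.Agent.N236.UB.Loc v p q e)
    (hp : p.Prime) (hl : l.Prime) (hpl : ¬ p ∣ l) (hcop : Nat.Coprime l (q ^ 2 - 1))
    (hx0 : x ≠ 0) (hyx : v y ≤ v x) (hα : v α ≤ v x ^ 2) :
    v x ^ l * v (y - x) ≤ v x * v ((dickson 1 α l).eval y - (dickson 1 α l).eval x) := by
  obtain ⟨hna, -, hvp, O, k, _, _, red, hO, hred, hsurj, hcard⟩ := hloc
  have hvx : 0 < v x := v.pos hx0
  have hvl : v (l : L) = 1 := v_coprime hna hp hvp hpl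
  have hlk : (l : k) ≠ 0 := by
    intro h
    have h1 : red ((l : ℕ) : O) = 0 := by rw [map_natCast]; exact h
    rw [hred] at h1
    have h2 : (((l : ℕ) : O) : L) = (l : L) := by simp
    rw [h2, hvl] at h1
    exact lt_irrefl _ h1
  have ht : v (y / x) ≤ 1 := by
    rw [map_div₀]; exact (div_le_one hvx).mpr hyx
  have hb : v (α / x ^ 2) ≤ 1 := by
    rw [map_div₀, v.map_pow]; exact (div_le_one (by positivity)).mpr hα
  set t : O := ⟨y / x, (hO _).mpr ht⟩ with htdef
  set b : O := ⟨α / x ^ 2, (hO _).mpr hb⟩ with hbdef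
  have hD := hk k l hl.one_le hlk (by rw [hcard]; exact hcop) (red b)
  -- scaling
  have hev : ∀ u : O, (dickson 1 α l).eval (x * (u : L)) =
      x ^ l * (((dickson 1 b l).eval u : O) : L) := by
    intro u
    have h1 : α = x ^ 2 * (b : L) := by
      rw [hbdef]; field_simp
    rw [h1, scale]
    congr 1
    have h2 := Polynomial.map_dickson (k := 1) (a := b) O.subtype l
    have h3 : O.subtype b = (b : L) := rfl
    rw [h3] at h2
    rw [← h2]
    exact Polynomial.eval_map_apply O.subtype u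
  have hy : y = x * (t : L) := by rw [htdef]; field_simp
  have hx1 : x = x * ((1 : O) : L) := by simp
  have hdiff : (dickson 1 α l).eval y - (dickson 1 α l).eval x =
      x ^ l * (((dickson 1 b l).eval t - (dickson 1 b l).eval 1 : O) : L) := by
    conv_lhs => rw [hy]
    conv_lhs => enter [2, 1]; rw [hx1]
    rw [hev, hev]
    push_cast
    ring
  have hyx' : y - x = x * ((t - 1 : O) : L) := by
    push_cast
    rw [mul_sub, ← hy, mul_one]
  rw [hdiff, hyx', v.map_mul, v.map_mul, v.map_pow]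
  have hmain : v ((t - 1 : O) : L) ≤
      v (((dickson 1 b l).eval t - (dickson 1 b l).eval 1 : O) : L) := by
    have hevr : ∀ (P : O[X]) (u : O), red (P.eval u) = (P.map red).eval (red u) := by
      intro P u
      exact (Polynomial.eval_map_apply red u).symm
    have hmapD : (dickson 1 b l).map red = dickson 1 (red b) l := Polynomial.map_dickson red l
    have htle : v ((t - 1 : O) : L) ≤ 1 := (hO _).mp (t - 1).2
    by_cases h1 : v ((t - 1 : O) : L) < 1
    · obtain ⟨r, hr⟩ := Polynomial.binomExpansion (dickson 1 b l) 1 (t - 1)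
      rw [add_sub_cancel] at hr
      have h2 : (dickson 1 b l).eval t - (dickson 1 b l).eval 1 =
          ((derivative (dickson 1 b l)).eval 1 + r * (t - 1)) * (t - 1) := by
        rw [hr]; ring
      have h3 : v (((derivative (dickson 1 b l)).eval 1 : O) : L) = 1 := by
        apply le_antisymm ((hO _).mp (Subtype.property _))
        by_contra hlt
        push Not at hlt
        rw [← hred, hevr, ← Polynomial.derivative_map, hmapD, map_one] at hlt
        exact hD.2 1 (Or.inl one_ne_zero) hlt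
      have h4 : v (((r * (t - 1) : O) : L)) < 1 := by
        push_cast
        rw [v.map_mul]
        have hr1 : v (r : L) ≤ 1 := (hO _).mp r.2
        have h1' : v ((t : L) - 1) < 1 := by
          have := h1
          push_cast at this
          exact this
        calc v (r : L) * v ((t : L) - 1) ≤ 1 * v ((t : L) - 1) :=
              mul_le_mul_of_nonneg_right hr1 (v.nonneg _)
          _ < 1 := by rw [one_mul]; exact h1'
      have h5 : v ((((derivative (dickson 1 b l)).eval 1 + r * (t - 1) : O) : O) : L) = 1 := by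
        rw [Subring.coe_add, v_add_eq hna (by rw [h3]; exact h4), h3]
      rw [h2, Subring.coe_mul, v.map_mul, h5, one_mul]
    · have h2 : v ((t - 1 : O) : L) = 1 := le_antisymm htle (not_lt.mp h1)
      rw [h2]
      by_contra hlt
      push Not at hlt
      rw [← hred, map_sub, hevr, hevr, hmapD, map_one, sub_eq_zero] at hlt
      have h3 := hD.1 _ _ hlt
      apply h1
      rw [← hred, map_sub, map_one, h3, sub_self]
  calc v x ^ l * (v x * v ((t - 1 : O) : L)) = v x * (v x ^ l * v ((t - 1 : O) : L)) := by ring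
    _ ≤ v x * (v x ^ l * v (((dickson 1 b l).eval t - (dickson 1 b l).eval 1 : O) : L)) := by
      gcongr

theorem t_dicv : Pool.Agent.N236.UB.S_DICK → Pool.Agent.N236.UB.S_DICV := by
  intro hk L _ v p q e l α hloc hp hl hpl hcop x y i hi
  by_cases hxy : x = y
  · rw [hxy, sub_self, sub_self, v.map_zero, zero_pow (by omega), mul_zero]
  have hna := hloc.1
  rcases le_or_gt (v α) (max (v x ^ 2) (v y ^ 2)) with hle | hgt
  · rcases le_total (v y) (v x) with h | h
    · have hx0 : x ≠ 0 := by
        rintro rfl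
        rw [v.map_zero] at h
        exact hxy ((v.eq_zero.mp (le_antisymm h (v.nonneg _))).symm)
      have hα : v α ≤ v x ^ 2 := hle.trans (max_le le_rfl (pow_le_pow_left₀ (v.nonneg _) h 2))
      exact sep_of_lower hna (v.pos hx0) le_rfl h hα l
        (caseB hk hloc hp hl hpl hcop hx0 h hα) i hi
    · have hy0 : y ≠ 0 := by
        rintro rfl
        rw [v.map_zero] at h
        exact hxy (v.eq_zero.mp (le_antisymm h (v.nonneg _)))
      have hα : v α ≤ v y ^ 2 := hle.trans (max_le (pow_le_pow_left₀ (v.nonneg _) h 2) le_rfl)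
      have hB := caseB hk hloc hp hl hpl hcop hy0 h hα
      rw [v.map_sub x y, v.map_sub ((dickson 1 α l).eval x)] at hB
      exact sep_of_lower hna (v.pos hy0) h le_rfl hα l hB i hi
  · -- case A
    have hα0 : 0 < v α := lt_of_le_of_lt (le_max_of_le_left (by positivity)) hgt
    set s : ℝ := Real.sqrt (v α) with hsdef
    have hs : 0 < s := Real.sqrt_pos.mpr hα0
    have hs2 : v α = s ^ 2 := (Real.sq_sqrt hα0.le).symm
    have hxs : v x < s := by
      have : v x ^ 2 < s ^ 2 := by rw [← hs2]; exact (le_max_left _ _).trans_lt hgt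
      exact lt_of_pow_lt_pow_left₀ 2 hs.le this
    have hys : v y < s := by
      have : v y ^ 2 < s ^ 2 := by rw [← hs2]; exact (le_max_right _ _).trans_lt hgt
      exact lt_of_pow_lt_pow_left₀ 2 hs.le this
    -- `l` is odd
    have hodd : l ≠ 2 := by
      rintro rfl
      obtain ⟨-, -, hvp, O, k, _, _, red, hO, hred, hsurj, hcard⟩ := hloc
      have hvl : v ((2 : ℕ) : L) = 1 := v_coprime hna hp hvp hpl
      have h2k : ((2 : ℕ) : k) ≠ 0 := by
        intro h
        have h1 : red ((2 : ℕ) : O) = 0 := by rw [map_natCast]; exact h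
        rw [hred] at h1
        have h2 : (((2 : ℕ) : O) : L) = ((2 : ℕ) : L) := rfl
        rw [h2, hvl] at h1
        exact lt_irrefl _ h1
      have hq : q % 2 = 1 := by
        by_contra h
        have h0 : Fintype.card k % 2 = 0 := by rw [hcard]; omega
        have h1 := FiniteField.even_card_iff_char_two.mpr h0
        apply h2k
        have h3 := ringChar.Nat.cast_ringChar (R := k)
        rwa [h1] at h3
      have h4 : 2 ∣ q ^ 2 - 1 := by
        obtain ⟨r, hr⟩ : ∃ r, q = 2 * r + 1 := ⟨q / 2, by omega⟩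
        rw [hr]
        refine ⟨2 * r ^ 2 + 2 * r, ?_⟩
        have : (2 * r + 1) ^ 2 = 2 * (2 * r ^ 2 + 2 * r) + 1 := by ring
        omega
      have h5 := Nat.Coprime.eq_one_of_dvd hcop h4
      omega
    obtain ⟨m, hm⟩ : ∃ m, l = 2 * m + 1 := hl.odd_of_ne_two hodd
    have hvl : v (l : L) = 1 := v_coprime hna hp hloc.2.2.1 hpl
    obtain ⟨-, -, -, h4⟩ := caseA hna (x := x) (y := y) (μ := max (v x) (v y)) hs
      (le_max_left _ _) (le_max_right _ _) (le_max_of_le_left (v.nonneg _)) (max_lt hxs hys) hs2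
      hxy m
    have hmain : v (((2 * m + 1 : ℕ) : L) * (-α) ^ m * (y - x)) = s ^ (2 * m) * v (y - x) := by
      rw [v.map_mul, v.map_mul, v.map_pow, v.map_neg, ← hm, hvl, one_mul, hs2, ← pow_mul]
    have h5 : v ((dickson 1 α (2 * m + 1)).eval y - (dickson 1 α (2 * m + 1)).eval x) =
        s ^ (2 * m) * v (y - x) := by
      have h6 := v_add_eq hna (x := ((2 * m + 1 : ℕ) : L) * (-α) ^ m * (y - x))
        (y := (dickson 1 α (2 * m + 1)).eval y - (dickson 1 α (2 * m + 1)).eval x -
          ((2 * m + 1 : ℕ) : L) * (-α) ^ m * (y - x)) (by rw [hmain]; exact h4)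
      rw [add_sub_cancel, hmain] at h6
      exact h6
    refine sep_of_lower hna hs hxs.le hys.le hs2.le l ?_ i hi
    rw [hm, h5]
    apply le_of_eq
    ring

end Pool.Agent.N491.UB
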